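import Pool.Agent.Q298.Frog.Gr

/-!
# The frog model with infinite lifespan on amenable vertex-transitive graphs

`result`: on every infinite, connected, locally finite, vertex-transitive amenable graph and for
every `lam > 0`, in the frog model with Poisson(`lam`) particles per vertex performing independent
rate `1` continuous-time simple random walks for all time, the active particles almost surely visit
every vertex of the graph as soon as there is a particle at the origin.
-/

set_option autoImplicit false
set_option linter.unusedSectionVars false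
open MeasureTheory Set Filter ProbabilityTheory
open scoped ENNReal NNReal Topology

namespace Pool.Agent.Results.MP_465498_pr.FrogAmenable

open Pool.Agent.Q298.Frog

section defs

variable {V : Type*}

open Classical in
/-- One step transition probability of the simple random walk on `G`: `1 / degree` for
neighbours, `0` otherwise. -/
noncomputable def stepProb (G : SimpleGraph V) [G.LocallyFinite] (x y : V) : ℝ≥0∞ :=
  if G.Adj x y then (G.degree x : ℝ≥0∞)⁻¹ else 0

open Classical in
/-- `μ` is the law (on the space of infinite trajectories) of the discrete-time simple random walk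
on `G` started at `x`: it is a probability measure with the usual cylinder probabilities. -/
def IsSimpleRW [MeasurableSpace V] (G : SimpleGraph V) [G.LocallyFinite] (x : V)
    (μ : Measure (ℕ → V)) : Prop :=
  IsProbabilityMeasure μ ∧ ∀ (n : ℕ) (w : ℕ → V), μ {X | ∀ i ≤ n, X i = w i} =
    if w 0 = x then ∏ i ∈ Finset.range n, stepProb G (w i) (w (i + 1)) else 0

/-- The outer vertex boundary of a finite set. -/
def vertexBoundary (G : SimpleGraph V) (F : Finset V) : Set V := {y | y ∉ F ∧ ∃ x ∈ F, G.Adj x y}

/-- Amenability: there are nonempty finite sets `F n` with `|∂ F n| / |F n| → 0`. -/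
def IsAmenable (G : SimpleGraph V) : Prop := ∃ F : ℕ → Finset V, (∀ n, (F n).Nonempty) ∧
  Tendsto (fun n => ((vertexBoundary G (F n)).ncard : ℝ) / (F n).card) atTop (𝓝 0)

/-- Number of jumps up to time `t` if the successive waiting times are `s 0, s 1, s 2, …`. -/
noncomputable def jumps (s : ℕ → ℝ) (t : ℝ) : ℕ := sSup {m : ℕ | ∑ i ∈ Finset.range m, s i ≤ t}

/-- Position at time `t` of the particle with jump chain `w.1` and waiting times `w.2`. -/
noncomputable def position (w : (ℕ → V) × (ℕ → ℝ)) (t : ℝ) : V := w.1 (jumps w.2 t)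

/-- A configuration: for every vertex the number of its particles, and the jump chains and waiting
times of its particles number `0, 1, 2, …` -/
abbrev Config (V : Type*) := V → ℕ × (ℕ → (ℕ → V) × (ℕ → ℝ))

/-- The law of the frog model: everything is independent, the numbers of particles are
Poisson(`lam`), the jump chains of the particles of `x` have law `srw x`, all waiting times are
exponential of rate `1`. -/
noncomputable def frogLaw [MeasurableSpace V] (srw : V → Measure (ℕ → V)) (lam : ℝ≥0) :
    Measure (Config V) :=
  Measure.infinitePi fun x => (poissonMeasure lam).prod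
    (Measure.infinitePi fun _ : ℕ => (srw x).prod (Measure.infinitePi fun _ : ℕ => expMeasure 1))

/-- Directed edge from `x` to `y`: one of the particles of `x` is at `y` at some time. -/
def Edge (ω : Config V) (x y : V) : Prop :=
  ∃ k < (ω x).1, ∃ t : ℝ, 0 ≤ t ∧ position ((ω x).2 k) t = y

/-- The set of the vertices that are ever visited by an active particle. -/
def cluster (ω : Config V) (o : V) : Set V := {y | Relation.ReflTransGen (Edge ω) o y}

end defs

lemma jumps_sum (s : ℕ → ℝ) (hs : ∀ i, 0 < s i) (n : ℕ) :
    jumps s (∑ i ∈ Finset.range n, s i) = n := by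
  unfold jumps
  have h : {m : ℕ | ∑ i ∈ Finset.range m, s i ≤ ∑ i ∈ Finset.range n, s i} = Iic n := by
    have hmono : StrictMono (fun m => ∑ i ∈ Finset.range m, s i) := by
      apply strictMono_nat_of_lt_succ
      intro m
      rw [Finset.sum_range_succ]
      linarith [hs m]
    ext m
    exact hmono.le_iff_le
  rw [h]
  exact csSup_Iic

lemma exp_pos : ∀ᵐ t ∂(expMeasure 1), 0 < t := by
  rw [ae_iff]
  have h1 : {t : ℝ | ¬ 0 < t} = Iic 0 := by ext t; simp
  rw [h1, expMeasure, gammaMeasure, withDensity_apply _ measurableSet_Iic]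
  have h2 : (∫⁻ t in Iic (0 : ℝ), gammaPDF 1 1 t) = ∫⁻ t in Iio (0 : ℝ), gammaPDF 1 1 t :=
    setLIntegral_congr Iio_ae_eq_Iic.symm
  rw [h2]
  exact lintegral_gammaPDF_of_nonpos le_rfl

section law

variable {V : Type*} [MeasurableSpace V] [MeasurableSingletonClass V] [Countable V]

/-- forget the waiting times -/
def forget (ω : Config V) : Cfg V := fun x => ((ω x).1, fun k => ((ω x).2 k).1)

instance expProb : IsProbabilityMeasure (expMeasure 1) := isProbabilityMeasure_expMeasure one_pos

lemma meas_forget : Measurable (forget : Config V → Cfg V) := by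
  unfold forget
  fun_prop

lemma map_forget (C : Chain V) (lam : ℝ≥0) : (frogLaw C.mu lam).map forget = C.frog lam := by
  have hg : Measurable (fun (W : ℕ → (ℕ → V) × (ℕ → ℝ)) k => (W k).1) := by fun_prop
  have h1 : (forget : Config V → Cfg V) = fun ω x =>
      (Prod.map id (fun (W : ℕ → (ℕ → V) × (ℕ → ℝ)) k => (W k).1)) (ω x) := rfl
  rw [h1, frogLaw, Measure.infinitePi_map_pi (f := fun _ =>
    Prod.map id (fun (W : ℕ → (ℕ → V) × (ℕ → ℝ)) k => (W k).1)) _ (fun _ => measurable_id.prodMap hg)]
  rw [Chain.frog]
  congr 1
  ext1 x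
  rw [← Measure.map_prod_map _ _ measurable_id hg, Measure.map_id,
    Measure.infinitePi_map_pi (f := fun _ => Prod.fst) _ (fun _ => measurable_fst), Chain.site]
  congr 2
  ext1 k
  rw [Measure.map_fst_prod, measure_univ, one_smul]

lemma map_wait (C : Chain V) (lam : ℝ≥0) (x : V) (k i : ℕ) :
    (frogLaw C.mu lam).map (fun ω => ((ω x).2 k).2 i) = expMeasure 1 := by
  have h1 : (fun ω : Config V => ((ω x).2 k).2 i) = (fun s : ℕ → ℝ => s i) ∘ (Prod.snd ∘
      ((fun W : ℕ → (ℕ → V) × (ℕ → ℝ) => W k) ∘ (Prod.snd ∘ (fun ω : Config V => ω x)))) := rfl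
  rw [h1, ← Measure.map_map (measurable_pi_apply i) (measurable_snd.comp
    ((measurable_pi_apply k).comp (measurable_snd.comp (measurable_pi_apply x)))),
    ← Measure.map_map measurable_snd ((measurable_pi_apply k).comp
      (measurable_snd.comp (measurable_pi_apply x))),
    ← Measure.map_map (measurable_pi_apply k) (measurable_snd.comp (measurable_pi_apply x)),
    ← Measure.map_map measurable_snd (measurable_pi_apply x), frogLaw,
    Measure.infinitePi_map_eval, Measure.map_snd_prod, measure_univ, one_smul,
    Measure.infinitePi_map_eval, Measure.map_snd_prod, measure_univ, one_smul,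
    Measure.infinitePi_map_eval]

lemma wait_pos (C : Chain V) (lam : ℝ≥0) :
    ∀ᵐ ω ∂(frogLaw C.mu lam), ∀ (x : V) (k i : ℕ), 0 < ((ω x).2 k).2 i := by
  rw [ae_all_iff]
  intro x
  rw [ae_all_iff]
  intro k
  rw [ae_all_iff]
  intro i
  have h := exp_pos
  rw [← map_wait C lam x k i] at h
  have hm : Measurable (fun ω : Config V => ((ω x).2 k).2 i) := by fun_prop
  exact ae_of_ae_map hm.aemeasurable h

lemma dre_cluster {ω : Config V} (hω : ∀ (x : V) (k i : ℕ), 0 < ((ω x).2 k).2 i) {o y : V}
    (h : dre (rel (forget ω)) o y) : y ∈ cluster ω o := by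
  show Relation.ReflTransGen (Edge ω) o y
  induction h with
  | refl => exact Relation.ReflTransGen.refl
  | tail _ hbc ih =>
    rename_i b c _
    refine ih.tail ?_
    obtain ⟨k, hk, n, hn⟩ := hbc
    refine ⟨k, hk, ∑ i ∈ Finset.range n, ((ω b).2 k).2 i,
      Finset.sum_nonneg (fun i _ => (hω b k i).le), ?_⟩
    unfold position
    rw [jumps_sum _ (hω b k)]
    exact hn

end law

theorem result {V : Type*} [MeasurableSpace V] [MeasurableSingletonClass V] [Infinite V]
    (G : SimpleGraph V) [G.LocallyFinite] (hconn : G.Connected)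
    (htrans : ∀ x y : V, ∃ φ : G ≃g G, φ x = y) (hamen : IsAmenable G)
    (srw : V → Measure (ℕ → V)) (hsrw : ∀ x, IsSimpleRW G x (srw x))
    (lam : ℝ≥0) (hlam : 0 < lam) (o : V) :
    (∀ᵐ ω ∂(frogLaw srw lam), 0 < (ω o).1 → cluster ω o = univ) ∧
      (ProbabilityTheory.cond (frogLaw srw lam) {ω | 0 < (ω o).1}) {ω | cluster ω o = univ} = 1 := by
  classical
  have hcount : Countable V := countable_of_conn hconn
  have hm : ∀ x, IsSRW G x (srw x) := fun x => ⟨(hsrw x).1, (hsrw x).2⟩
  have ham : Amenable G := hamen
  set C := srwChain htrans srw hm with hC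
  have hmu : srw = C.mu := rfl
  have hfrog := Chain.frog_conn (srw_Trans htrans srw hm) (srw_Irr htrans srw hm hconn)
    (srw_Amen htrans srw hm ham) lam hlam o
  rw [← hC, ← map_forget] at hfrog
  have h1 := ae_of_ae_map meas_forget.aemeasurable hfrog
  have h2 := wait_pos C lam
  have main : ∀ᵐ ω ∂(frogLaw srw lam), 0 < (ω o).1 → cluster ω o = univ := by
    rw [hmu]
    filter_upwards [h1, h2] with ω hω hω2 hpos
    exact eq_univ_of_forall (fun y => dre_cluster hω2 (hω hpos y))
  refine ⟨main, ?_⟩
  have hp : IsProbabilityMeasure (frogLaw srw lam) := by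
    rw [hmu]
    unfold frogLaw
    infer_instance
  have hN : Measurable (fun ω : Config V => (ω o).1) := by fun_prop
  have hB : MeasurableSet {ω : Config V | 0 < (ω o).1} :=
    hN (MeasurableSet.of_discrete (s := {n : ℕ | 0 < n}))
  have hB0 : frogLaw srw lam {ω : Config V | 0 < (ω o).1} ≠ 0 := by
    intro h0
    have h3 : (frogLaw srw lam).map (fun ω => (ω o).1) = poissonMeasure lam := by
      have e1 : (fun ω : Config V => (ω o).1) = Prod.fst ∘ (fun ω : Config V => ω o) := rfl
      rw [hmu, e1, ← Measure.map_map measurable_fst (measurable_pi_apply o), frogLaw,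
        Measure.infinitePi_map_eval, Measure.map_fst_prod, measure_univ, one_smul]
    have h4 : poissonMeasure lam {n : ℕ | 0 < n} = 0 := by
      rw [← h3, Measure.map_apply hN MeasurableSet.of_discrete]
      exact h0
    have h5 : poissonMeasure lam {1} = 0 := measure_mono_null (by intro n hn; simp at hn; simp [hn]) h4
    rw [poissonMeasure_singleton] at h5
    have h6 : (0 : ℝ) < Real.exp (-(lam : ℝ)) * (lam : ℝ) ^ 1 / (1 : ℕ).factorial := by
      have : (0 : ℝ) < lam := hlam
      positivity
    exact absurd h5 (by simpa using h6)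
  rw [cond_apply hB]
  have h7 : frogLaw srw lam ({ω | 0 < (ω o).1} ∩ {ω | cluster ω o = univ}) =
      frogLaw srw lam {ω : Config V | 0 < (ω o).1} := by
    apply measure_congr
    filter_upwards [main] with ω hω
    exact propext ⟨fun h => h.1, fun h => ⟨h, hω h⟩⟩
  rw [h7]
  exact ENNReal.inv_mul_cancel hB0 (measure_ne_top _ _)

end Pool.Agent.Results.MP_465498_pr.FrogAmenable
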